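import Pool.Agent.Lib.MP_5c99ad_al.Lcs

/-!
# Groups of exponent `p` and class at most `p - 2` embed in derived subgroups of exponent `p` groups

Let `p` be a prime and `H` a finite group of exponent (dividing) `p` and nilpotency class at most
`p - 2`. Then `H` embeds in the derived subgroup of a finite group `G` of exponent (dividing) `p`.
In Mathlib's numbering the lower central series starts with `lowerCentralSeries 0 = ⊤`, so that
`lowerCentralSeries n = ⊥` says that the class is at most `n`.

Idea of the proof. By (a form of) Jennings' theorem `H` embeds in the group of unitriangular matrices
with entries in `ZMod p`, the rows being divided into at most `p - 1` levels. Twist the entries by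
products of anticommuting square-zero elements `f_k` (and a parity `P`) of a finite ring; the twisted
matrices are even, and each level is a commutator of an odd matrix and of one scalar `f_k` in the
group of the matrices `[[a + b v, b], [a v, a]]`, `a` even, `b` odd, `v` a sum of the `f_k`. This
group has exponent `p` although it is not of class less than `p` in general: the `p`-th power of such
a matrix is a weighted sum of the conjugates `A^n D A^(p-1-n)`, which vanishes because of binomial
congruences and because `(ad A)^(p-2) D` has level `p - 1`.
-/

set_option autoImplicit false

namespace Pool.Agent.Results.MP_5c99ad_al.SmallClass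

/-- **Every finite group of prime exponent `p` and class at most `p - 2` embeds in the derived
subgroup of a finite group of exponent `p`.** -/
theorem result (p : ℕ) (hp : p.Prime) (H : Type) [Group H] [Finite H]
    (hexp : ∀ h : H, h ^ p = 1) (hcl : (⊤ : Subgroup H).lowerCentralSeries (p - 2) = ⊥) :
    ∃ (G : Type) (_ : Group G), Finite G ∧ (∀ y : G, y ^ p = 1) ∧
      ∃ φ : H →* G, Function.Injective φ ∧ ∀ h : H, φ h ∈ commutator G :=
  Pool.Agent.ExpP.small_class p hp H hexp hcl

end Pool.Agent.Results.MP_5c99ad_al.SmallClass
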